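import Pool.Agent.W751.RR.Stm
import Pool.Agent.W751.CD.Dyn

set_option autoImplicit false

/-! The deterministic conclusions. -/

open Polynomial Filter Topology MeasureTheory

namespace Pool.Agent.W32.RR

open Pool.Agent.W751.CD Pool.Agent.W751.RR

lemma big {N : ℕ} {ρ : ℝ} (hρ : 0 < ρ) (hN : 2 ≤ N) (h3 : 2 * (1 + ρ / 3) ≤ (3 : ℝ) ^ (N - 1))
    (z : Fin N → ℂ) (hz : ∀ i, ‖z i‖ ≤ ρ) (w : ℂ) (hw : ρ + 3 ≤ ‖w‖) :
    2 * ‖w‖ ≤ ‖(P z).eval w‖ := by
  have e : (P z).eval w = ∏ i, (w - z i) := by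
    unfold P
    rw [eval_prod]
    simp
  rw [e, norm_prod]
  obtain ⟨t, ht⟩ : ∃ t : ℝ, t = ‖w‖ - ρ := ⟨_, rfl⟩
  have ht3 : 3 ≤ t := by rw [ht]; linarith
  have h1 : t ^ N ≤ ∏ i, ‖w - z i‖ := by
    have h2 : ∏ _i : Fin N, t = t ^ N := by simp
    rw [← h2]
    refine Finset.prod_le_prod (fun _ _ => by linarith) fun i _ => ?_
    rw [ht]
    have := norm_sub_norm_le w (z i)
    linarith [hz i]
  refine le_trans ?_ h1
  have h4 : t ^ N = t ^ (N - 1) * t := by
    rw [← pow_succ]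
    congr 1
    omega
  have h5 : (3 : ℝ) ^ (N - 1) ≤ t ^ (N - 1) := pow_le_pow_left₀ (by norm_num) ht3 _
  rw [h4]
  have h6 : 2 * (1 + ρ / 3) * t ≤ t ^ (N - 1) * t :=
    mul_le_mul_of_nonneg_right (h3.trans h5) (by linarith)
  refine le_trans ?_ h6
  have h7 : ‖w‖ = t + ρ := by rw [ht]; ring
  rw [h7]
  nlinarith

theorem hyp : S_HYP := by
  intro hD hNOC ρ h N hρ _ hr hh hh2 hN h3 h8 z hz he1 he2 hsep hbad
  have hNz := hNOC N hN z hsep
  have hexp : 1 / 2 ≤ Real.exp (-h) := by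
    have h4 : Real.exp (-Real.log 2) ≤ Real.exp (-h) := Real.exp_le_exp.2 (by linarith)
    rw [Real.exp_neg, Real.exp_log (by norm_num)] at h4
    linarith
  have key := hD (P z) 1 (ρ + 3) (ρ + 3) (r0 ρ / 2) one_ne_zero (by linarith) (by linarith)
    (le_refl _) (by linarith) ?_ ?_ ?_
  · rw [C_1, one_mul] at key
    exact key
  · intro w hw
    rw [one_mul]
    exact big hρ hN h3 z hz w hw
  · intro w hw
    rw [one_mul]
    left
    have := he1 w (by nlinarith)
    linarith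
  · intro c hc hc1 hc2
    rw [one_mul] at hc1 hc2 ⊢
    have hc3 : r0 ρ * Real.exp (-h) ≤ ‖c‖ := by
      by_contra hcon
      push Not at hcon
      have := he1 c hcon.le
      linarith
    have hc4 : ‖c‖ ≤ r0 ρ * Real.exp h := by
      by_contra hcon
      push Not at hcon
      have := he2 c hcon.le (hNz c hc)
      linarith
    by_contra hcon
    push Not at hcon
    obtain ⟨hv1, hv2⟩ := hcon
    rw [one_mul] at hv1 hv2
    have hv3 : r0 ρ * Real.exp (-h) ≤ ‖(P z).eval c‖ := by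
      by_contra hcon
      push Not at hcon
      have := he1 _ hcon.le
      linarith
    apply hbad
    refine ⟨hz, c, hc3, hc4, hc, by linarith, hc2, ?_⟩
    rcases le_or_gt ‖(P z).eval c‖ (r0 ρ * Real.exp h) with h5 | h5
    · left
      exact ⟨hv3, h5, by linarith, hv2⟩
    · right
      by_contra hcon
      push Not at hcon
      have := he2 _ h5.le (fun i => (hcon i).le)
      linarith

theorem hyp2 : S_HYP2 := by
  intro hNOC ρ N hρ hN h3 z hz he hsep c hc
  left
  apply Esc.shift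
  have h1 := he c (hNOC N hN z hsep c hc)
  exact esc_of_large (R := ρ + 3) (by linarith) (fun w hw => big hρ hN h3 z hz w hw) h1.le

end Pool.Agent.W32.RR
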